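import Pool.Agent.PFC.StmtsB3

namespace Pool.Agent.PFC.H95

open Pool.Agent.PFC.B3 MvPolynomial

theorem fam (hSke : SkeStmt) (hNkf : NkfStmt) (hEig : EigStmt) (hFib : FibStmt) : FamStmt := by
  intro ℓ hℓ F V E _ _ _ iV iE φ iF hV hE hp hnt hcard
  classical
  letI cV : CommGroup V := { iV with mul_comm := hV }
  letI cE : CommGroup E := { iE with mul_comm := hE }
  haveI fV : Finite V := Finite.of_injective (SemidirectProduct.inl : V →* V ⋊[φ] E)
    SemidirectProduct.inl_injective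
  haveI fE : Finite E := Finite.of_injective (SemidirectProduct.inr : E →* V ⋊[φ] E)
    SemidirectProduct.inr_injective
  letI fE' : Fintype E := Fintype.ofFinite E
  have hc : (Fintype.card E : F) ≠ 0 := by
    intro h0
    rw [CharP.cast_eq_zero_iff F ℓ] at h0
    exact hcard (by rw [Nat.card_eq_fintype_card]; exact h0)
  obtain ⟨I, fI, nI, ⟨D⟩⟩ := hEig ℓ F V E φ hp hnt hc
  obtain ⟨i0⟩ := nI
  have h2 : ∀ i, 2 ≤ ℓ ^ D.a i := by
    intro i
    calc 2 ≤ ℓ := hℓ.out.two_le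
      _ = ℓ ^ 1 := (pow_one ℓ).symm
      _ ≤ ℓ ^ D.a i := Nat.pow_le_pow_right hℓ.out.pos (D.a1 i)
  obtain ⟨Λ, rΛ, aΛ, ⟨P⟩⟩ := hSke (PowerSeries F) I E (fun i => ℓ ^ D.a i) D.p
    (cc (PowerSeries F) I PowerSeries.X i0) (ηη (PowerSeries F) D.η) h2 (by
      intro i e
      have := D.hη i e
      simp only [ηη, MonoidHom.comp_apply]
      rw [← map_pow, this])
  obtain ⟨N, hN⟩ := hNkf ℓ F I E Λ D.a D.p i0 D.η P D.a1 D.hη hc
  obtain ⟨fb, hfb⟩ := hFib ℓ F V E I Λ φ D i0 P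
  refine ⟨Λ, rΛ, aΛ, Module.Finite.of_basis P.b, Module.Free.of_basis P.b, fb, N, ?_⟩
  intro e
  rw [hN]
  exact hfb e

end Pool.Agent.PFC.H95
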