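import Pool.Agent.PFC.StmtsB5c

/-! Squad PFC, row SPN of block B5c (ord 551). -/

open scoped BigOperators

namespace Pool.Agent.PFC.H95

open Pool.Agent.PFC Pool.Agent.PFC.B5c

private theorem iota_fx {F V : Type} [Field F] [CommGroup V] (Y : IA F V) (R : Subgroup V)
    (u : V) : Y.ι u ∈ Fx (cj F Y.ι) R := by
  intro h _
  change Y.ι h * (Y.ι u * Y.ι h⁻¹) = Y.ι u
  rw [← map_mul, ← map_mul]
  congr 1
  rw [mul_comm u, mul_inv_cancel_left]

private theorem exp_of {F V : Type} [Field F] [CommGroup V] [Fintype V]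
    (f : MonoidAlgebra F V) : f = ∑ u, f.coeff u • MonoidAlgebra.of F V u := by
  classical
  ext v
  rw [MonoidAlgebra.coeff_sum, Finset.sum_apply']
  simp [MonoidAlgebra.of_apply, Finsupp.single_apply]

theorem spn (hBrk : BrkStmt) : SpnStmt := by
  intro ℓ _ F V _ _ _ _ Y R hp hB
  obtain ⟨β, s, h⟩ := hB
  have key := fun m hm => hBrk ℓ F V Y.A (IA.gr F V).A (cj F Y.ι) (cj F (IA.gr F V).ι) R β s hp
    h.toBrS m hm
  constructor
  · intro a ha
    refine ⟨fun u => (MonoidAlgebra.coeff (β a : MonoidAlgebra F V)) u, ?_⟩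
    set c : V → F := fun u => (MonoidAlgebra.coeff (β a : MonoidAlgebra F V)) u with hc
    have hm : a - ∑ u, c u • Y.ι u ∈ Fx (cj F Y.ι) R :=
      Submodule.sub_mem _ ha (Submodule.sum_mem _ fun u _ =>
        Submodule.smul_mem _ _ (iota_fx Y R u))
    rw [← key _ hm, map_sub, map_sum]
    have h1 : ∀ u, β (c u • Y.ι u) = c u • (IA.gr F V).ι u := by
      intro u
      rw [map_smul, h.cov]
    simp_rw [h1]
    rw [sub_eq_zero]
    exact exp_of (β a : MonoidAlgebra F V)
  · intro h1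
    have hm : (1 : Y.A) ∈ Fx (cj F Y.ι) R := by
      have := iota_fx Y R 1
      rwa [map_one] at this
    rw [← key _ hm] at h1
    have h3 : β (Y.ι 1) = (IA.gr F V).ι 1 := h.cov 1
    have h4 : Y.ι 1 = 1 := map_one _
    rw [h4, h1, map_one] at h3
    exact zero_ne_one (α := MonoidAlgebra F V) h3

end Pool.Agent.PFC.H95
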